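import Mathlib

/-!
Minimal relating retracts of a finite poset need not be order-isomorphic.

The counterexample has six points `v0, ..., v5` with covering relations
`v0 < v2`, `v0 < v3`, `v1 < v4`, `v2 < v4`, `v2 < v5`, `v3 < v5`.
Its minimal relating retracts are `{v0, v4}` (a two-element chain) and
`{v2, v4, v5}` (a three-element fence).
-/

namespace Pool.Agent.Results.MP_33f3d1_co.NonUnique

/-- `Y ⊆ X` is a relating retract of the poset `X`: there is an order-preserving map
`r : X → Y` with `r y = y` for all `y ∈ Y`, such that `x` and `r x` are comparable for every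
`x ∈ X \ Y`. The subset `Y` carries the induced order. -/
def IsRelatingRetract {X : Type*} [PartialOrder X] (Y : Set X) : Prop :=
  ∃ r : X →o Y, (∀ y : Y, r (y : X) = y) ∧
    ∀ x : X, x ∉ Y → (x ≤ (r x : X) ∨ (r x : X) ≤ x)

/-- A relating retract `Y` of `X` is minimal if no proper nonempty subset of `Y` is a relating
retract of `X`. -/
def IsMinimalRelatingRetract {X : Type*} [PartialOrder X] (Y : Set X) : Prop :=
  IsRelatingRetract Y ∧ ∀ Z : Set X, Z ⊂ Y → Z.Nonempty → ¬ IsRelatingRetract Z

/-- The six points of the counterexample. -/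
inductive P6 : Type
  | v0 | v1 | v2 | v3 | v4 | v5
  deriving DecidableEq

open P6

instance : Fintype P6 where
  elems := {v0, v1, v2, v3, v4, v5}
  complete := by intro x; cases x <;> decide

/-- The order relation of the counterexample, as a table. -/
def P6.leb : P6 → P6 → Bool
  | v0, v0 => true
  | v0, v2 => true
  | v0, v3 => true
  | v0, v4 => true
  | v0, v5 => true
  | v1, v1 => true
  | v1, v4 => true
  | v2, v2 => true
  | v2, v4 => true
  | v2, v5 => true
  | v3, v3 => true
  | v3, v5 => true
  | v4, v4 => true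
  | v5, v5 => true
  | _, _ => false

instance : LE P6 := ⟨fun a b => P6.leb a b = true⟩

instance : DecidableRel (fun a b : P6 => a ≤ b) :=
  fun a b => inferInstanceAs (Decidable (P6.leb a b = true))

instance (a b : P6) : Decidable (a ≤ b) := inferInstanceAs (Decidable (P6.leb a b = true))

instance : PartialOrder P6 where
  le := fun a b => a ≤ b
  le_refl := by decide
  le_trans := by decide
  le_antisymm := by decide

/-- Unfolding of a relating retract into a self-map. -/
theorem exists_map {Z : Set P6} (h : IsRelatingRetract Z) :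
    ∃ f : P6 → P6, Monotone f ∧ (∀ x, f x ∈ Z) ∧ (∀ z ∈ Z, f z = z) ∧
      ∀ x, x ∉ Z → (x ≤ f x ∨ f x ≤ x) := by
  obtain ⟨r, h1, h2⟩ := h
  refine ⟨fun x => (r x : P6), fun a b hab => r.monotone hab, fun x => (r x).2, ?_, h2⟩
  intro z hz
  exact congrArg Subtype.val (h1 ⟨z, hz⟩)

/-- The retraction onto `{v0, v4}`. -/
def f1 : P6 → P6
  | v0 => v0
  | v1 => v4
  | v2 => v0
  | v3 => v0
  | v4 => v4
  | v5 => v0

/-- The retraction onto `{v2, v4, v5}`. -/
def f2 : P6 → P6
  | v0 => v2
  | v1 => v4
  | v2 => v2
  | v3 => v5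
  | v4 => v4
  | v5 => v5

theorem retract1 : IsRelatingRetract ({v0, v4} : Set P6) := by
  have hm : ∀ a b : P6, a ≤ b → f1 a ≤ f1 b := by decide
  have hY : ∀ x : P6, f1 x = v0 ∨ f1 x = v4 := by decide
  have hc : ∀ x : P6, x ≤ f1 x ∨ f1 x ≤ x := by decide
  refine ⟨⟨fun x => ⟨f1 x, by simpa using hY x⟩, fun a b hab => hm a b hab⟩, ?_, ?_⟩
  · rintro ⟨y, hy⟩
    apply Subtype.ext
    rcases hy with rfl | hy
    · rfl
    · rw [Set.mem_singleton_iff] at hy
      subst hy
      rfl
  · intro x _
    exact hc x

theorem retract2 : IsRelatingRetract ({v2, v4, v5} : Set P6) := by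
  have hm : ∀ a b : P6, a ≤ b → f2 a ≤ f2 b := by decide
  have hY : ∀ x : P6, f2 x = v2 ∨ f2 x = v4 ∨ f2 x = v5 := by decide
  have hc : ∀ x : P6, x ≤ f2 x ∨ f2 x ≤ x := by decide
  refine ⟨⟨fun x => ⟨f2 x, by simpa using hY x⟩, fun a b hab => hm a b hab⟩, ?_, ?_⟩
  · rintro ⟨y, hy⟩
    apply Subtype.ext
    rcases hy with rfl | rfl | hy
    · rfl
    · rfl
    · rw [Set.mem_singleton_iff] at hy
      subst hy
      rfl
  · intro x _
    exact hc x

theorem minimal1 : IsMinimalRelatingRetract ({v0, v4} : Set P6) := by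
  refine ⟨retract1, ?_⟩
  intro Z hZ _ hr
  obtain ⟨f, -, hmem, -, hcmp⟩ := exists_map hr
  have hsub : ∀ x ∈ Z, x = v0 ∨ x = v4 := fun x hx => by simpa using hZ.1 hx
  have h4 : v4 ∈ Z := by
    by_contra h4
    have h1 : f v1 = v0 := by
      rcases hsub _ (hmem v1) with h | h
      · exact h
      · exact absurd (h ▸ hmem v1) h4
    have h1Z : v1 ∉ Z := fun h => by
      rcases hsub _ h with h | h <;> cases h
    have := hcmp v1 h1Z
    rw [h1] at this
    revert this
    decide
  have h0 : v0 ∈ Z := by
    by_contra h0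
    have h3 : f v3 = v4 := by
      rcases hsub _ (hmem v3) with h | h
      · exact absurd (h ▸ hmem v3) h0
      · exact h
    have h3Z : v3 ∉ Z := fun h => by
      rcases hsub _ h with h | h <;> cases h
    have := hcmp v3 h3Z
    rw [h3] at this
    revert this
    decide
  apply hZ.2
  intro x hx
  rcases hx with rfl | hx
  · exact h0
  · rw [Set.mem_singleton_iff] at hx
    subst hx
    exact h4

theorem minimal2 : IsMinimalRelatingRetract ({v2, v4, v5} : Set P6) := by
  refine ⟨retract2, ?_⟩
  intro Z hZ _ hr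
  obtain ⟨f, hmono, hmem, hfix, hcmp⟩ := exists_map hr
  have hsub : ∀ x ∈ Z, x = v2 ∨ x = v4 ∨ x = v5 := fun x hx => by simpa using hZ.1 hx
  have h4 : v4 ∈ Z := by
    by_contra h4
    have h1Z : v1 ∉ Z := fun h => by
      rcases hsub _ h with h | h | h <;> cases h
    have := hcmp v1 h1Z
    rcases hsub _ (hmem v1) with h | h | h
    · rw [h] at this
      revert this
      decide
    · exact absurd (h ▸ hmem v1) h4
    · rw [h] at this
      revert this
      decide
  have h5 : v5 ∈ Z := by
    by_contra h5
    have h3Z : v3 ∉ Z := fun h => by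
      rcases hsub _ h with h | h | h <;> cases h
    have := hcmp v3 h3Z
    rcases hsub _ (hmem v3) with h | h | h
    · rw [h] at this
      revert this
      decide
    · rw [h] at this
      revert this
      decide
    · exact absurd (h ▸ hmem v3) h5
  have h2 : v2 ∈ Z := by
    by_contra h2
    have e4 := hfix v4 h4
    have e5 := hfix v5 h5
    have l4 : f v0 ≤ f v4 := hmono (by decide)
    have l5 : f v0 ≤ f v5 := hmono (by decide)
    rw [e4] at l4
    rw [e5] at l5
    rcases hsub _ (hmem v0) with h | h | h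
    · exact absurd (h ▸ hmem v0) h2
    · rw [h] at l5
      revert l5
      decide
    · rw [h] at l4
      revert l4
      decide
  apply hZ.2
  intro x hx
  rcases hx with rfl | rfl | hx
  · exact h2
  · exact h4
  · rw [Set.mem_singleton_iff] at hx
    subst hx
    exact h5

/-- There is a finite poset with two minimal relating retracts that are not
order-isomorphic. -/
theorem result :
    ∃ (X : Type) (_ : Finite X) (_ : PartialOrder X) (Y Z : Set X),
      IsMinimalRelatingRetract Y ∧ IsMinimalRelatingRetract Z ∧ ¬ Nonempty (Y ≃o Z) := by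
  refine ⟨P6, inferInstance, inferInstance, {v0, v4}, {v2, v4, v5}, minimal1, minimal2, ?_⟩
  rintro ⟨e⟩
  have h := Fintype.card_congr e.toEquiv
  revert h
  decide

end Pool.Agent.Results.MP_33f3d1_co.NonUnique
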